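import Pool.Agent.Lib.SXI.ICh

/-!
# ICore: a Turing ideal with (*) contains every real
-/

set_option autoImplicit false

namespace Pool.Agent.SX

open Pool.Agent.Mart Pool.Agent.GammaZero Cardinal

variable {K : Type}

/-- the functions of the ground model are dominated by members of the ideal -/
theorem idl_dom (hK : 𝔠 < #K) (V : Idl K) (M : ℕ → ℕ) :
    ∃ (k : PM K) (C : (K → Cs) → Cs), V.W k C ∧ ∀ x, ∃ g : ℕ → ℕ, CI {orc (C x)} g ∧ ∀ n, M n ≤ g n := by
  classical
  obtain ⟨T, hd, cl, θ, v, E, M0, R, ρ, blk, hv, hc, happ, hlim, hdep, hb, hhd, hs⟩ := ilsB hK V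
  have hempty : #(∅ : Set K) ≤ 𝔠 := by
    rw [Cardinal.mk_eq_zero]
    exact zero_le
  obtain ⟨J, hJ, A⟩ := gsq (G := GoodI V T v R ρ) (fun j h => h.inj) (fun j h => h.root) hs hempty
  obtain ⟨h2, -, hm⟩ := un A T 1 (fun l n _ => rfl)
  have h0 : ∀ s, V.W h2 (fun x => v fun n => x (J s n)) := by
    intro s
    obtain ⟨m, e1, e2⟩ := hm s
    have h1 := V.res (hJ s).val m
    have h3 : (fun x : K → Cs => v fun n => x (J s n)) ∘ ac m = fun x => v fun n => x (J s n) := by
      funext x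
      show v (fun n => (m.1 (J s n)).f (x (J s n))) = v fun n => x (J s n)
      congr 1
      funext n
      rw [e2 n]
      rfl
    rw [h3, ← e1] at h1
    exact h1
  -- the numbers
  choose Nf Sf hNS using fun l => blk_num (cl l) (θ l) M0 (hd l) R {p | blk p = some l} (hc l)
    (fun y n s hns => hlim l y n s hns) (fun y y' h => hdep l y y' h)
  let L : ℕ → ℕ := fun l => Nat.rec (max (E 0) (max (E 1) (M 0)))
    (fun l ih => max (Sf l ih) (max (E (l + 1)) (max (E (l + 2)) (M (l + 1))))) l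
  have hL0 : L 0 = max (E 0) (max (E 1) (M 0)) := rfl
  have hL1 : ∀ l, L (l + 1) = max (Sf l (L l)) (max (E (l + 1)) (max (E (l + 2)) (M (l + 1)))) := fun _ => rfl
  have hLE : ∀ l, E l ≤ L l := by
    intro l
    cases l with
    | zero => rw [hL0]; exact le_max_left _ _
    | succ l => rw [hL1]; exact le_trans (le_max_left _ _) (le_max_right _ _)
  have hLE1 : ∀ l, E (l + 1) ≤ L l := by
    intro l
    cases l with
    | zero => rw [hL0]; exact le_trans (le_max_left _ _) (le_max_right _ _)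
    | succ l =>
      rw [hL1]
      exact le_trans (le_trans (le_max_left _ _) (le_max_right _ _)) (le_max_right _ _)
  have hLM : ∀ l, M l ≤ L l := by
    intro l
    cases l with
    | zero => rw [hL0]; exact le_trans (le_max_right _ _) (le_max_right _ _)
    | succ l =>
      rw [hL1]
      exact le_trans (le_trans (le_max_right _ _) (le_max_right _ _)) (le_max_right _ _)
  have hLS : ∀ l, Sf l (L l) ≤ L (l + 1) := by
    intro l
    rw [hL1]
    exact le_max_left _ _
  obtain ⟨q, hq⟩ := exists_q A hb hd (fun l => Nf l (L l))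
  refine ⟨h2 * q, fun x => bjoin (v fun n => ac q x (J 0 n)) (v fun n => ac q x (J 1 n)),
    V.join (V.res (h0 0) q) (V.res (h0 1) q), fun x => ?_⟩
  have hR : ∀ p ∈ R, ac q x (J 0 p) = ac q x (J 1 p) := by
    intro p hp
    rw [A.root 0 p hp, A.root 1 p hp]
  have hJx : ∀ s p l, blk p = some l → ac q x (J s p) =
      pfx (Nf l (L l) + 1) (zz (decide (s = 1 ∧ p = hd l)) (Nf l (L l))) (x (J s p)) := by
    intro s p l hp
    rw [ac_apply, hq s p l hp]
    rfl
  have hblock : ∀ l, (∀ t < L l, cl l (fun n => ac q x (J 0 n)) t = cl l (fun n => ac q x (J 1 n)) t) ∧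
      ∃ t, L l ≤ t ∧ t < Sf l (L l) ∧ cl l (fun n => ac q x (J 0 n)) t ≠ cl l (fun n => ac q x (J 1 n)) t := by
    intro l
    refine hNS l (L l) _ _ hR (fun p hp => ?_) ⟨x (J 0 (hd l)), x (J 1 (hd l)), ?_, ?_⟩
    · rw [hJx 0 p l hp, hJx 1 p l hp]
      intro k hk
      have h1 := agp (Nf l (L l) + 1) (zz (decide ((0 : ℕ) = 1 ∧ p = hd l)) (Nf l (L l))) (x (J 0 p)) k (by omega)
      have h3 := agp (Nf l (L l) + 1) (zz (decide ((1 : ℕ) = 1 ∧ p = hd l)) (Nf l (L l))) (x (J 1 p)) k (by omega)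
      rw [← h1, ← h3, zz_lt _ _ _ hk, zz_lt _ _ _ hk]
    · rw [hJx 0 (hd l) l (hhd l)]
      simp
    · rw [hJx 1 (hd l) l (hhd l)]
      simp
  obtain ⟨g, hg1, hg2⟩ := chain_dec (v fun n => ac q x (J 0 n)) (v fun n => ac q x (J 1 n))
    (bjoin (v fun n => ac q x (J 0 n)) (v fun n => ac q x (J 1 n))) (tr_bjoin_left _ _) (tr_bjoin_right _ _)
    E L (fun l => Sf l (L l)) hLE hLE1 hLS (fun l t h1 h3 => by
      rw [happ l _ t h1, happ l _ t h1]
      exact (hblock l).1 t h3) (fun l => by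
      obtain ⟨t, h1, h3, h4⟩ := (hblock l).2
      refine ⟨t, h1, h3, ?_⟩
      rw [happ l _ t ((hLE l).trans h1), happ l _ t ((hLE l).trans h1)]
      exact h4)
  exact ⟨g, hg1, fun n => (hLM n).trans (hg2 n)⟩

/-- the core theorem -/
theorem idl_core (hK : 𝔠 < #K) (V : Idl K) (h : PM K) {z : (K → Cs) → Cs} (hz : Continuous z) :
    ∃ k : PM K, V.W (h * k) (z ∘ ac k) :=
  idl_of_dom V (fun h M => idl_dom hK (V.rel h) M) h hz

end Pool.Agent.SX
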