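import Pool.Agent.Lib.SXI.BIDefs
import Pool.Agent.Lib.SXI.ICore
import Pool.Agent.Lib.SX.RdE
import Pool.Agent.Lib.SX.TrF

/-!
# BI: a name of a Turing ideal with (*) gives an `Idl K`
-/

set_option autoImplicit false

namespace Pool.Agent.SX

open Pool.Agent.PolB Pool.Agent.Lib.BVM Pool.Agent.Mart Cardinal

variable {K : Type}

/-- below `p * h` the real `b` is a member of `F` -/
def Wl (F : (ℕ → BP K) → BP K) (p h : PM K) (b : (K → Cs) → Cs) : Prop :=
  Continuous b ∧ ∃ u, Rd (p * h) u b ∧ Ap (p * h) (F u)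

private theorem ap_ext {F : (ℕ → BP K) → BP K} (hF : ExtS F) {h : PM K} {u u' : ℕ → BP K} {b : (K → Cs) → Cs}
    (hb : Continuous b) (H : Rd h u b) (H' : Rd h u' b) (ha : Ap h (F u)) : Ap h (F u') :=
  le_iff_Ap.1 (hF u u') _ ⟨Rd.eqv hb H H', ha⟩

theorem Wl.ap {F : (ℕ → BP K) → BP K} (hF : ExtS F) {p h : PM K} {b : (K → Cs) → Cs} (H : Wl F p h b)
    {u : ℕ → BP K} (hu : Rd (p * h) u b) : Ap (p * h) (F u) := by
  obtain ⟨hb, u', hu', ha⟩ := H
  exact ap_ext hF hb hu' hu ha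

private theorem himp_ap {h : PM K} {a b : BP K} (H : Ap h (a ⇨ b)) (ha : Ap h a) : Ap h b :=
  (Ap_himp leP_refl leP_trans _ _ _).1 H h (leP_refl _) ha

/-- equal bits of names give equal bits of the functions -/
theorem Rd.of_iff {h : PM K} {A A' : ℕ → BP K} {b b' : (K → Cs) → Cs} (hb : Continuous b) (hb' : Continuous b')
    (H : Rd h A b) (H' : Rd h A' b') {n n' : ℕ} (ha : Ap h (bihimp (A n) (A' n'))) (x : K → Cs) :
    b x n = b' x n' := by
  have o1 : IsOpen {y : K → Cs | b y n = b x n} :=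
    (isOpen_discrete ({b x n} : Set Bool)).preimage ((continuous_apply n).comp hb)
  have o2 : IsOpen {y : K → Cs | b' y n' = b' x n'} :=
    (isOpen_discrete ({b' x n'} : Set Bool)).preimage ((continuous_apply n').comp hb')
  obtain ⟨F, m, hF⟩ := open_nbhd (o1.inter o2) (x := x) ⟨rfl, rfl⟩
  have hk : ∀ z, b (ac (cel F m x) z) n = b x n ∧ b' (ac (cel F m x) z) n' = b' x n' := fun z =>
    hF _ (mem_cel.1 ⟨z, rfl⟩)
  have ha' := ap_mul ha (cel F m x)
  rw [bihimp_def, Ap_inf] at ha'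
  by_contra hc
  cases h1 : b x n
  · have h2 : b' x n' = true := by
      cases h3 : b' x n'
      · exact absurd (h1.trans h3.symm) hc
      · rfl
    have h4 := (H' (cel F m x) n').1 fun z => (hk z).2.trans h2
    have h5 := (H (cel F m x) n).2 fun z => (hk z).1.trans h1
    exact ap_not_both (himp_ap ha'.1 h4) h5
  · have h2 : b' x n' = false := by
      cases h3 : b' x n'
      · rfl
      · exact absurd (h1.trans h3.symm) hc
    have h4 := (H' (cel F m x) n').2 fun z => (hk z).2.trans h2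
    have h5 := (H (cel F m x) n).1 fun z => (hk z).1.trans h1
    exact ap_not_both (himp_ap ha'.2 h5) h4

theorem rd_jnB {h : PM K} {u v : ℕ → BP K} {b b' : (K → Cs) → Cs} (H : Rd h u b) (H' : Rd h v b') :
    Rd h (jnB u v) (fun x => bjoin (b x) (b' x)) := by
  intro k n
  unfold jnB bjoin
  by_cases hn : n % 2 = 0
  · simp only [if_pos hn]
    exact H k (n / 2)
  · simp only [if_neg hn]
    exact H' k (n / 2)

private theorem continuous_bjoin' {a b : (K → Cs) → Cs} (ha : Continuous a) (hb : Continuous b) :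
    Continuous fun x => bjoin (a x) (b x) := by
  refine continuous_pi fun n => ?_
  unfold bjoin
  by_cases h : n % 2 = 0
  · simp only [if_pos h]
    exact (continuous_apply _).comp ha
  · simp only [if_neg h]
    exact (continuous_apply _).comp hb

/-- a bound for the modulus -/
theorem alm_bound {q : PM K} {c : ℕ → BP K} {u : ℕ → ℕ → BP K} {c' : (K → Cs) → Cs} {b : ℕ → (K → Cs) → Cs}
    (hc' : Continuous c') (hb : ∀ n, Continuous (b n)) (Hc : Rd q c c') (Hb : ∀ n, Rd q (u n) (b n))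
    (ha : Ap q (alm c u)) :
    ∃ (k : PM K) (E : ℕ → ℕ), ∀ x n m, E n ≤ m → c' (ac k x) (Nat.pair n m) = b n (ac k x) m := by
  have hn : ∀ n, Ap q (⨆ a : ℕ, ⨅ m : ℕ, bihimp (c (Nat.pair n (a + m))) (u n (a + m))) :=
    (Ap_iInf leP_refl leP_trans _ _).1 ha
  obtain ⟨k, hk⟩ := fus (fun n k => ∃ a : ℕ, Ap (q * k) (⨅ m : ℕ, bihimp (c (Nat.pair n (a + m))) (u n (a + m))))
    (fun n k => by
      obtain ⟨k', a, h1⟩ := ap_iSup (ap_mul (hn n) k)
      refine ⟨k', a, ?_⟩
      rw [← mul_assoc]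
      exact h1)
    (fun n k k' ⟨a, h1⟩ => ⟨a, by rw [← mul_assoc]; exact ap_mul h1 k'⟩) 1
  rw [one_mul] at hk
  have hE : ∀ n, ∃ a : ℕ, ∀ x m, a ≤ m → c' (ac k x) (Nat.pair n m) = b n (ac k x) m := by
    intro n
    obtain ⟨F, l, hF⟩ := hk n
    have key : ∃ a : ℕ, ∀ x ∈ (Set.univ : Set (K → Cs)), ∀ m, a ≤ m →
        c' (ac k x) (Nat.pair n m) = b n (ac k x) m := by
      refine IsCompact.induction_on (isCompact_univ (X := K → Cs))
        (p := fun s => ∃ a : ℕ, ∀ x ∈ s, ∀ m, a ≤ m → c' (ac k x) (Nat.pair n m) = b n (ac k x) m) ?_ ?_ ?_ ?_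
      · exact ⟨0, fun x hx => absurd hx (Set.notMem_empty x)⟩
      · rintro s t hst ⟨a, h⟩
        exact ⟨a, fun x hx => h x (hst hx)⟩
      · rintro s t ⟨a, h⟩ ⟨a', h'⟩
        refine ⟨max a a', fun x hx m hm => ?_⟩
        rcases hx with hx | hx
        · exact h x hx m ((le_max_left _ _).trans hm)
        · exact h' x hx m ((le_max_right _ _).trans hm)
      · intro x _
        obtain ⟨a, h1⟩ := hF x
        rw [← mul_assoc] at h1
        rw [Ap_iInf leP_refl leP_trans] at h1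
        refine ⟨_, mem_nhdsWithin_of_mem_nhds ((isOpen_box F l x).mem_nhds fun i _ => Ag.refl _ _), a,
          fun y hy m hm => ?_⟩
        obtain ⟨z, rfl⟩ := mem_cel.2 hy
        have h2 := h1 (m - a)
        rw [Nat.add_sub_of_le hm] at h2
        have h3 := Rd.of_iff (hc'.comp (continuous_ac (k * cel F l x))) ((hb n).comp (continuous_ac (k * cel F l x)))
          (by rw [mul_assoc]; exact Hc.mul (k * cel F l x)) (by rw [mul_assoc]; exact (Hb n).mul (k * cel F l x)) h2 z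
        exact h3
    obtain ⟨a, h⟩ := key
    exact ⟨a, fun x => h x (Set.mem_univ x)⟩
  choose E hE using hE
  exact ⟨k, E, fun x n m hm => hE n x m hm⟩

/-- the interface -/
noncomputable def idlC (F : (ℕ → BP K) → BP K) (hF : ExtS F) (p : PM K) (hp : Ap p (idlB F)) : Idl K where
  W h b := Wl F p h b
  cont H := H.1
  ne h := by
    have h1 : Ap (p * h) (⨆ u, F u) := ap_mul hp.1.1.1 h
    obtain ⟨k, u, hu⟩ := ap_iSup h1
    obtain ⟨k', b, hb, H⟩ := exists_rd (p * h * k) u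
    have e : p * (h * (k * k')) = p * h * k * k' := by simp only [mul_assoc]
    refine ⟨k * k', b, hb, u, ?_, ?_⟩
    · rw [e]
      exact H
    · rw [e]
      exact ap_mul hu k'
  res := by
    rintro h b ⟨hb, u, hu, ha⟩ k
    refine ⟨hb.comp (continuous_ac k), u, ?_, ?_⟩
    · rw [← mul_assoc]
      exact hu.mul k
    · rw [← mul_assoc]
      exact ap_mul ha k
  join := by
    rintro h b b' ⟨hb, u, hu, ha⟩ ⟨hb', u', hu', ha'⟩
    refine ⟨continuous_bjoin' hb hb', jnB u u', rd_jnB hu hu', ?_⟩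
    have h1 : Ap (p * h) (joB F) := ap_mul hp.1.1.2 h
    exact himp_ap ((Ap_iInf leP_refl leP_trans _ _).1 h1 (u, u')) ⟨ha, ha'⟩
  tr := by
    rintro h b c ⟨hb, u, hu, ha⟩ hc ht
    refine ⟨hc, nm (p * h) c, rd_nm (p * h) hc, ?_⟩
    have h1 : Ap (p * h) (dnB F) := ap_mul hp.1.2 h
    exact himp_ap ((Ap_iInf leP_refl leP_trans _ _).1 h1 (u, nm (p * h) c))
      ⟨ha, ap_of_tr hc hb (rd_nm (p * h) hc) hu ht⟩
  cl := by
    intro h b H
    have hb : ∀ n, Continuous (b n) := fun n => (H n).1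
    choose u hu ha using fun n => (H n).2
    have h1 : Ap (p * h) (clB F) := ap_mul hp.2 h
    have h2 := himp_ap ((Ap_iInf leP_refl leP_trans _ _).1 h1 u) ((Ap_iInf leP_refl leP_trans _ _).2 ha)
    obtain ⟨k1, c, hc⟩ := ap_iSup h2
    obtain ⟨k2, c', hc', Hc⟩ := exists_rd (p * h * k1) c
    have hq1 : Ap (p * h * k1 * k2) (F c) := ap_mul hc.1 k2
    have hq2 : Ap (p * h * k1 * k2) (alm c u) := ap_mul hc.2 k2
    have hu' : ∀ n, Rd (p * h * k1 * k2) (u n) (b n ∘ ac (k1 * k2)) := by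
      intro n
      have h3 := (hu n).mul (k1 * k2)
      rw [← mul_assoc] at h3
      exact h3
    obtain ⟨k3, E, hE⟩ := alm_bound hc' (fun n => (hb n).comp (continuous_ac (k1 * k2))) Hc hu' hq2
    have e : p * (h * (k1 * k2 * k3)) = p * h * k1 * k2 * k3 := by simp only [mul_assoc]
    refine ⟨k1 * k2 * k3, c' ∘ ac k3, E, ⟨hc'.comp (continuous_ac k3), c, ?_, ?_⟩, fun x n m hm => ?_⟩
    · rw [e]
      exact Hc.mul k3
    · rw [e]
      exact ap_mul hq1 k3
    · exact hE x n m hm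

/-- the core theorem in the regular open algebra -/
theorem idlB_le (hK : 𝔠 < #K) (F : (ℕ → BP K) → BP K) (hF : ExtS F) (u : ℕ → BP K) : idlB F ≤ F u := by
  rw [le_iff_Ap]
  intro p hp
  refine ap_loc fun k => ?_
  obtain ⟨k1, z, hz, Hz⟩ := exists_rd (p * k) u
  obtain ⟨k2, H⟩ := idl_core hK (idlC F hF p hp) (k * k1) hz
  refine ⟨k1 * k2, ?_⟩
  have H' : Wl F p (k * k1 * k2) (z ∘ ac k2) := H
  have e : p * k * (k1 * k2) = p * (k * k1 * k2) := by simp only [mul_assoc]
  rw [e]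
  refine H'.ap hF ?_
  have h1 := Hz.mul k2
  have e2 : p * (k * k1 * k2) = p * k * k1 * k2 := by simp only [mul_assoc]
  rw [e2]
  exact h1

end Pool.Agent.SX
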