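import Pool.Agent.Lib.SX.MDefs

/-!
# BIDefs: Boolean values for names of Turing ideals

A name of a set of reals is an (extensional) function `F : (ℕ → B) → B`; a real is a sequence `ℕ → B`.
-/

set_option autoImplicit false
universe u

namespace Pool.Agent.SX

open Pool.Agent.Mart
open scoped symmDiff

variable {B : Type u} [CompleteBooleanAlgebra B]

/-- `F` takes equal values at equal reals -/
def ExtS (F : (ℕ → B) → B) : Prop := ∀ u u', eqv u u' ⊓ F u ≤ F u'

/-- the join of two reals -/
def jnB (u v : ℕ → B) : ℕ → B := fun n => if n % 2 = 0 then u (n / 2) else v (n / 2)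

/-- the value of: for every `n`, the column `n` of `c` and `b n` are equal from some place on -/
def alm (c : ℕ → B) (b : ℕ → ℕ → B) : B := ⨅ n, ⨆ a : ℕ, ⨅ m : ℕ, (c (Nat.pair n (a + m)) ⇔ b n (a + m))

/-- the value of: `F` is nonempty -/
def neB (F : (ℕ → B) → B) : B := ⨆ u, F u

/-- the value of: `F` is closed under joins -/
def joB (F : (ℕ → B) → B) : B := ⨅ p : (ℕ → B) × (ℕ → B), (F p.1 ⊓ F p.2 ⇨ F (jnB p.1 p.2))

/-- the value of: `F` is closed downwards under Turing reducibility -/
def dnB (F : (ℕ → B) → B) : B := ⨅ p : (ℕ → B) × (ℕ → B), (F p.1 ⊓ trB p.2 p.1 ⇨ F p.2)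

/-- the value of: for every sequence `b` of members of `F` there is a member `c` of `F` such that for every `n` the column
`n` of `c` and `b n` are equal from some place on -/
def clB (F : (ℕ → B) → B) : B := ⨅ b : ℕ → ℕ → B, ((⨅ n, F (b n)) ⇨ ⨆ c, F c ⊓ alm c b)

/-- the value of: `F` is a Turing ideal with the property (*) -/
def idlB (F : (ℕ → B) → B) : B := neB F ⊓ joB F ⊓ dnB F ⊓ clB F

end Pool.Agent.SX
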