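import Pool.Agent.Lib.SX.SDefs

/-!
# IDec: decoding of a chain of differences

Two reals `c`, `c'`, read as sequences of columns. If the first difference of the `l`-th columns after `t l` is
always defined, then the sequence `t` of the iterated searches is computable.
-/

set_option autoImplicit false

namespace Pool.Agent.SX

open Pool.Agent.Mart Pool.Agent.GammaZero

/-- the chain: numbers `L l ≤ S l ≤ L (l + 1)`; the columns `l` of `c` and `c'` agree between `A l` and `L l` and differ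
somewhere between `L l` and `S l`, where `A l ≤ L l` and `A (l + 1) ≤ L l` -/
theorem chain_dec (c c' y : Cs) (hc : TR c y) (hc' : TR c' y) (A L S : ℕ → ℕ)
    (hA : ∀ l, A l ≤ L l) (hAL : ∀ l, A (l + 1) ≤ L l) (hSL : ∀ l, S l ≤ L (l + 1))
    (hag : ∀ l t, A l ≤ t → t < L l → c (Nat.pair l t) = c' (Nat.pair l t))
    (hdi : ∀ l, ∃ t, L l ≤ t ∧ t < S l ∧ c (Nat.pair l t) ≠ c' (Nat.pair l t)) :
    ∃ g : ℕ → ℕ, CI {orc y} g ∧ ∀ n, L n ≤ g n := by
  classical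
  have hex : ∀ l s, s ≤ L l → ∃ t, s ≤ t ∧ c (Nat.pair l t) ≠ c' (Nat.pair l t) := by
    intro l s hs
    obtain ⟨t, h1, -, h3⟩ := hdi l
    exact ⟨t, hs.trans h1, h3⟩
  -- the state
  have hleast : ∀ l s, ∃ t', (∃ t, s ≤ t ∧ c (Nat.pair l t) ≠ c' (Nat.pair l t)) →
      s ≤ t' ∧ c (Nat.pair l t') ≠ c' (Nat.pair l t') ∧
        ∀ t, s ≤ t → t < t' → c (Nat.pair l t) = c' (Nat.pair l t) := by
    intro l s
    by_cases h : ∃ t, s ≤ t ∧ c (Nat.pair l t) ≠ c' (Nat.pair l t)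
    · refine ⟨Nat.find h, fun _ => ⟨(Nat.find_spec h).1, (Nat.find_spec h).2, fun t h1 h2 => ?_⟩⟩
      by_contra hcon
      exact Nat.find_min h h2 ⟨h1, hcon⟩
    · exact ⟨0, fun h' => absurd h' h⟩
  choose nx hnx using hleast
  let s : ℕ → ℕ := fun l => Nat.rec (A 0) (fun l ih => nx l ih) l
  have hs0 : s 0 = A 0 := rfl
  have hs1 : ∀ l, s (l + 1) = nx l (s l) := fun _ => rfl
  have key : ∀ l, A l ≤ s l → s l ≤ L l → L l ≤ s (l + 1) ∧ s (l + 1) < S l ∧
      s l ≤ s (l + 1) ∧ c (Nat.pair l (s (l + 1))) ≠ c' (Nat.pair l (s (l + 1))) ∧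
      ∀ t, s l ≤ t → t < s (l + 1) → c (Nat.pair l t) = c' (Nat.pair l t) := by
    intro l h1 h2
    obtain ⟨h5, h6, h8⟩ := hnx l (s l) (hex l (s l) h2)
    rw [← hs1] at h5 h6 h8
    have h7 : L l ≤ s (l + 1) := by
      by_contra hcon
      exact h6 (hag l _ (h1.trans h5) (not_le.1 hcon))
    refine ⟨h7, ?_, h5, h6, h8⟩
    obtain ⟨t, h9, h10, h11⟩ := hdi l
    by_contra hcon
    exact h11 (h8 t (h2.trans h9) (lt_of_lt_of_le h10 (not_lt.1 hcon)))
  have hb : ∀ l, A l ≤ s l ∧ s l ≤ L l := by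
    intro l
    induction l with
    | zero => exact ⟨le_rfl, hA 0⟩
    | succ l ih =>
      obtain ⟨h1, h2, -⟩ := key l ih.1 ih.2
      exact ⟨(hAL l).trans h1, (h2.le).trans (hSL l)⟩
  refine ⟨fun l => s (l + 1), ?_, fun l => (key l (hb l).1 (hb l).2).1⟩
  let P : ℕ × ℕ × ℕ → Prop := fun p => p.2.1 ≤ p.2.2 ∧ (c (Nat.pair p.1 p.2.2)).toNat ≠ (c' (Nat.pair p.1 p.2.2)).toNat ∧
    ∀ t < p.2.2, ¬ (p.2.1 ≤ t ∧ (c (Nat.pair p.1 t)).toNat ≠ (c' (Nat.pair p.1 t)).toNat)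
  have ci : CI {orc y} (fun p : ℕ × ℕ × ℕ => p.1) := CI.of_computable Computable.fst
  have cs : CI {orc y} (fun p : ℕ × ℕ × ℕ => p.2.1) :=
    CI.of_computable (Computable.fst.comp Computable.snd)
  have cw : CI {orc y} (fun p : ℕ × ℕ × ℕ => p.2.2) :=
    CI.of_computable (Computable.snd.comp Computable.snd)
  have hP : DI {orc y} P := by
    refine (DI.le cs cw).and ((DI.not (DI.eq (ci_orc_comp hc (CI.npair ci cw))
      (ci_orc_comp hc' (CI.npair ci cw)))).and ?_)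
    have c1 : CI {orc y} fun q : (ℕ × ℕ × ℕ) × ℕ => q.1.1 :=
      CI.of_computable (Computable.fst.comp Computable.fst)
    have c2 : CI {orc y} fun q : (ℕ × ℕ × ℕ) × ℕ => q.1.2.1 :=
      CI.of_computable (Computable.fst.comp (Computable.snd.comp Computable.fst))
    have c3 : CI {orc y} fun q : (ℕ × ℕ × ℕ) × ℕ => q.2 := CI.of_computable Computable.snd
    exact DI.ball (DI.not ((DI.le c2 c3).and (DI.not (DI.eq (ci_orc_comp hc (CI.npair c1 c3))
      (ci_orc_comp hc' (CI.npair c1 c3)))))) cw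
  have hne : ∀ a b : Bool, a.toNat ≠ b.toNat ↔ a ≠ b := by decide
  have h1 := iter_search hP cw s (fun l => ⟨s (l + 1), by
    obtain ⟨h1, -, h3, h4, h5⟩ := key l (hb l).1 (hb l).2
    refine ⟨h3, (hne _ _).2 h4, fun t ht h6 => ?_⟩
    exact (hne _ _).1 h6.2 (h5 t h6.1 ht)⟩) (fun l w hw => by
    obtain ⟨h1, h2, h3⟩ := hw
    obtain ⟨-, -, h5, h6, h7⟩ := key l (hb l).1 (hb l).2
    rcases lt_trichotomy w (s (l + 1)) with h | h | h
    · exact absurd (h7 w h1 h) ((hne _ _).1 h2)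
    · exact h
    · exact absurd ⟨h5, (hne _ _).2 h6⟩ (h3 _ h))
  exact CI.comp h1 (CI.of_computable Computable.succ)

end Pool.Agent.SX
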