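import Pool.Agent.Lib.SXI.ILs
import Pool.Agent.Lib.SXI.IDec
import Pool.Agent.Lib.SX.Cell

/-!
# ICh: the chain of differences between two isomorphic families
-/

set_option autoImplicit false

namespace Pool.Agent.SX

open Pool.Agent.Mart Cardinal

variable {K : Type}

/-- the string of zeros below `N`, and the value `s` at `N` -/
def zz (s : Bool) (N : ℕ) : Cs := fun k => s && decide (k = N)

theorem zz_lt (s : Bool) (N k : ℕ) (h : k < N) : zz s N k = false := by
  have h1 : ¬ k = N := by omega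
  simp [zz, h1]

theorem zz_self (s : Bool) (N : ℕ) : zz s N N = s := by simp [zz]

theorem agp (n : ℕ) (z y : Cs) : Ag n z (pfx n z y) := fun k hk => (if_pos hk).symm

/-- the images of two disjoint cones are separated -/
theorem sep_cone (θ : SM) (N : ℕ) : ∃ n0 : ℕ, ∀ w w' : Cs, ∃ n < n0,
    θ.f (pfx (N + 1) (zz false N) w) n ≠ θ.f (pfx (N + 1) (zz true N) w') n := by
  have hc : ∀ s : Bool, Continuous fun w : Cs => θ.f (pfx (N + 1) (zz s N) w) := fun s =>
    θ.continuous.comp (pfxM (N + 1) (zz s N)).continuous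
  have key : ∃ n0 : ℕ, ∀ p ∈ (Set.univ : Set (Cs × Cs)), ∃ n < n0,
      θ.f (pfx (N + 1) (zz false N) p.1) n ≠ θ.f (pfx (N + 1) (zz true N) p.2) n := by
    refine IsCompact.induction_on (isCompact_univ (X := Cs × Cs))
      (p := fun s => ∃ n0 : ℕ, ∀ p ∈ s, ∃ n < n0,
        θ.f (pfx (N + 1) (zz false N) p.1) n ≠ θ.f (pfx (N + 1) (zz true N) p.2) n) ?_ ?_ ?_ ?_
    · exact ⟨0, fun p hp => absurd hp (Set.notMem_empty p)⟩
    · rintro s t hst ⟨n0, h⟩
      exact ⟨n0, fun p hp => h p (hst hp)⟩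
    · rintro s t ⟨n0, h⟩ ⟨n1, h'⟩
      refine ⟨max n0 n1, fun p hp => ?_⟩
      rcases hp with hp | hp
      · obtain ⟨n, hn, h2⟩ := h p hp
        exact ⟨n, lt_of_lt_of_le hn (le_max_left _ _), h2⟩
      · obtain ⟨n, hn, h2⟩ := h' p hp
        exact ⟨n, lt_of_lt_of_le hn (le_max_right _ _), h2⟩
    · intro p _
      have hne : θ.f (pfx (N + 1) (zz false N) p.1) ≠ θ.f (pfx (N + 1) (zz true N) p.2) := by
        intro h
        have h1 := congrFun (θ.inj h) N
        rw [← (agp (N + 1) (zz false N) p.1) N (Nat.lt_succ_self N),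
          ← (agp (N + 1) (zz true N) p.2) N (Nat.lt_succ_self N), zz_self, zz_self] at h1
        exact Bool.noConfusion h1
      obtain ⟨n, hn⟩ := Function.ne_iff.1 hne
      have ho : IsOpen {q : Cs × Cs | θ.f (pfx (N + 1) (zz false N) q.1) n ≠
          θ.f (pfx (N + 1) (zz true N) q.2) n} := by
        have h1 : Continuous fun q : Cs × Cs => (θ.f (pfx (N + 1) (zz false N) q.1) n,
            θ.f (pfx (N + 1) (zz true N) q.2) n) :=
          (((continuous_apply n).comp (hc false)).comp continuous_fst).prodMk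
            (((continuous_apply n).comp (hc true)).comp continuous_snd)
        exact (isOpen_discrete {b : Bool × Bool | b.1 ≠ b.2}).preimage h1
      refine ⟨_, mem_nhdsWithin_of_mem_nhds (ho.mem_nhds hn), n + 1, fun q hq => ⟨n, Nat.lt_succ_self n, hq⟩⟩
  obtain ⟨n0, h⟩ := key
  exact ⟨n0, fun w w' => h (w, w') (Set.mem_univ _)⟩

/-- lengths and bounds for one block -/
theorem blk_num (cl : (ℕ → Cs) → Cs) (θ : SM) (M : ℕ → ℕ) (hd : ℕ) (R : Set ℕ) (B : Set ℕ) (hc : Continuous cl)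
    (hM : ∀ y n s, M n ≤ s → cl y (Nat.pair n s) = θ.f (y hd) n)
    (hdep : ∀ y y', (∀ p, p ∈ R ∨ p ∈ B → y p = y' p) → cl y = cl y') (L : ℕ) :
    ∃ N S : ℕ, ∀ y y' : ℕ → Cs, (∀ p ∈ R, y p = y' p) → (∀ p ∈ B, Ag N (y p) (y' p)) →
      (∃ w w', y hd = pfx (N + 1) (zz false N) w ∧ y' hd = pfx (N + 1) (zz true N) w') →
      (∀ t < L, cl y t = cl y' t) ∧ ∃ t, L ≤ t ∧ t < S ∧ cl y t ≠ cl y' t := by
  classical
  obtain ⟨F, N, hN⟩ := unif_Ag hc L
  obtain ⟨n0, hn0⟩ := sep_cone θ N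
  refine ⟨N, (Finset.range n0).sup (fun n => Nat.pair n (M n)) + 1, ?_⟩
  rintro y y' hR hB ⟨w, w', hw, hw'⟩
  have h1 : ∀ t < L, cl y t = cl y' t := by
    have e : cl y' = cl fun p => if p ∈ R ∨ p ∈ B then y' p else y p := by
      refine hdep _ _ fun p hp => ?_
      rw [if_pos hp]
    rw [e]
    refine hN _ _ fun p _ => ?_
    by_cases hp : p ∈ R ∨ p ∈ B
    · rw [if_pos hp]
      rcases hp with hp | hp
      · rw [hR p hp]
        exact Ag.refl _ _
      · exact hB p hp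
    · rw [if_neg hp]
      exact Ag.refl _ _
  refine ⟨h1, ?_⟩
  obtain ⟨n, hn, h2⟩ := hn0 w w'
  have h3 : cl y (Nat.pair n (M n)) ≠ cl y' (Nat.pair n (M n)) := by
    rw [hM y n _ le_rfl, hM y' n _ le_rfl, hw, hw']
    exact h2
  refine ⟨Nat.pair n (M n), ?_, ?_, h3⟩
  · by_contra hcon
    exact h3 (h1 _ (not_le.1 hcon))
  · exact Nat.lt_succ_of_le (Finset.le_sup (f := fun n => Nat.pair n (M n)) (Finset.mem_range.2 hn))

/-- the prolongation: in the block `l` of the copy `s` by `N l` zeros and one more value, which is `true` only for the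
position `hd l` in the copy `1` -/
theorem exists_q {R : Set ℕ} {ρ : ℕ → K} {Z0 : Set K} {J : ℕ → ℕ → K} (A : Apart R ρ Z0 J) {blk : ℕ → Option ℕ}
    (hb : ∀ p ∈ R, blk p = none) (hd : ℕ → ℕ) (N : ℕ → ℕ) :
    ∃ q : PM K, ∀ s p l, blk p = some l →
      q.1 (J s p) = pfxM (N l + 1) (zz (decide (s = 1 ∧ p = hd l)) (N l)) := by
  classical
  let Q : K → ℕ × ℕ × ℕ → Prop := fun i t => blk t.2.1 = some t.2.2 ∧ J t.1 t.2.1 = i
  have hQ : ∀ i t t', Q i t → Q i t' → t = t' := by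
    rintro i ⟨s, p, l⟩ ⟨s', p', l'⟩ ⟨h1, h2⟩ ⟨h3, h4⟩
    simp only at h1 h2 h3 h4
    have hp : p ∉ R := fun h => by
      rw [hb p h] at h1
      exact Option.some_ne_none l h1.symm
    have hs : s = s' := by
      by_contra hne
      exact A.dis s s' p p' hp hne (h2.trans h4.symm)
    subst hs
    have hpp : p = p' := A.inj s (h2.trans h4.symm)
    subst hpp
    have hl : l = l' := Option.some.inj (h1.symm.trans h3)
    rw [hl]
  let f : K → SM := fun i => if h : ∃ t, Q i t then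
    pfxM (N h.choose.2.2 + 1) (zz (decide (h.choose.1 = 1 ∧ h.choose.2.1 = hd h.choose.2.2)) (N h.choose.2.2)) else 1
  have hf : {i | f i ≠ 1}.Countable := by
    refine (Set.countable_iUnion fun s : ℕ => Set.countable_range (J s)).mono fun i hi => ?_
    by_contra hc
    apply hi
    refine dif_neg ?_
    rintro ⟨t, -, h2⟩
    exact hc (Set.mem_iUnion.2 ⟨t.1, t.2.1, h2⟩)
  refine ⟨⟨f, hf⟩, fun s p l hp => ?_⟩
  have h : ∃ t, Q (J s p) t := ⟨(s, p, l), hp, rfl⟩
  have h1 : h.choose = (s, p, l) := hQ _ _ _ h.choose_spec ⟨hp, rfl⟩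
  show f (J s p) = _
  have h2 : f (J s p) = pfxM (N h.choose.2.2 + 1)
      (zz (decide (h.choose.1 = 1 ∧ h.choose.2.1 = hd h.choose.2.2)) (N h.choose.2.2)) := dif_pos h
  rw [h2, h1]

end Pool.Agent.SX
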