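import Pool.Agent.Lib.SX.SDefs

/-!
# IDefs: the interface for names of Turing ideals with closed subspace (MP_4c1ea5_lc, Q2)

`Idl K`: what a name of a Turing ideal `U` with the property (*) gives. `W h b`: the condition `h` forces that the
real `b` (a continuous function of the generic point) is a member of `U`.
(*) [a consequence of closedness]: for all `B 0, B 1, ...` in `U` there is `C` in `U` such that for all `n`,
`C (Nat.pair n m) = B n m` for almost all `m`.
Paper: /team-store/MP_4c1ea5_Q2_helper25.md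
-/

set_option autoImplicit false

namespace Pool.Agent.SX

open Pool.Agent.Mart Cardinal

/-- names of Turing ideals with (*) -/
structure Idl (K : Type) where
  W : PM K → ((K → Cs) → Cs) → Prop
  cont : ∀ {h b}, W h b → Continuous b
  ne : ∀ h, ∃ k b, W (h * k) b
  res : ∀ {h b}, W h b → ∀ k, W (h * k) (b ∘ ac k)
  join : ∀ {h b b'}, W h b → W h b' → W h (fun x => bjoin (b x) (b' x))
  tr : ∀ {h b c}, W h b → Continuous c → (∀ x, TR (c x) (b x)) → W h c
  cl : ∀ {h} {b : ℕ → (K → Cs) → Cs}, (∀ n, W h (b n)) →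
    ∃ (k : PM K) (c : (K → Cs) → Cs) (E : ℕ → ℕ), W (h * k) c ∧
      ∀ x n m, E n ≤ m → c x (Nat.pair n m) = b n (ac k x) m

variable {K : Type}

/-- the interface below the condition `h` -/
def Idl.rel (V : Idl K) (h : PM K) : Idl K where
  W k b := V.W (h * k) b
  cont hv := V.cont hv
  ne k := by
    obtain ⟨k', b, hb⟩ := V.ne (h * k)
    exact ⟨k', b, by rw [← mul_assoc]; exact hb⟩
  res hv k' := by rw [← mul_assoc]; exact V.res hv k'
  join h1 h2 := V.join h1 h2
  tr h1 h2 h3 := V.tr h1 h2 h3
  cl {k b} hb := by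
    obtain ⟨k', c, E, h1, h2⟩ := V.cl hb
    exact ⟨k', c, E, by rw [← mul_assoc]; exact h1, h2⟩

/-- `j` is a good copy of a point: `g`, read through `j`, is a member of the ideal below `tp j T` -/
structure GoodI (V : Idl K) (T : ℕ → SM) (g : (ℕ → Cs) → Cs) (R : Set ℕ) (ρ : ℕ → K) (j : ℕ → K) : Prop where
  inj : Function.Injective j
  root : ∀ n ∈ R, j n = ρ n
  val : V.W (tp j T) (fun x => g fun n => x (j n))

end Pool.Agent.SX
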