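import Pool.Agent.Lib.SXI.IDefs

/-!
# ILa: every name is the pointwise limit of a member of the ideal, with a ground model modulus
-/

set_option autoImplicit false

namespace Pool.Agent.SX

open Pool.Agent.Mart Pool.Agent.GammaZero Cardinal

variable {K : Type}

theorem tr_const (b : Bool) (y : Cs) : TR (fun _ => b) y := by
  rw [tr_iff_ci]
  exact CI.const b.toNat

theorem idl_lim (V : Idl K) (h : PM K) {z : (K → Cs) → Cs} (hz : Continuous z) :
    ∃ (k : PM K) (d : (K → Cs) → Cs) (M : ℕ → ℕ), V.W (h * k) d ∧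
      ∀ x n t, M n ≤ t → d x (Nat.pair n t) = z (ac k x) n := by
  obtain ⟨k0, b0, hb0⟩ := V.ne h
  have h1 : ∀ n : ℕ, V.W (h * k0) (fun x _ => z (ac k0 x) n) := by
    intro n
    refine V.tr hb0 ?_ fun x => tr_const _ _
    exact continuous_pi fun _ => (continuous_apply n).comp (hz.comp (continuous_ac k0))
  obtain ⟨k, c, E, hc, hE⟩ := V.cl h1
  refine ⟨k0 * k, c, E, by rw [← mul_assoc]; exact hc, fun x n t ht => ?_⟩
  rw [hE x n t ht]
  rfl

/-- evaluation of an approximation at a function computable from an oracle -/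
theorem tr_of_lim {z d y : Cs} (hd : TR d y) {g : ℕ → ℕ} (hg : CI {orc y} g)
    (hz : ∀ n, d (Nat.pair n (g n)) = z n) : TR z y := by
  rw [tr_iff_ci]
  refine (ci_orc_comp hd (CI.npair (CI.of_computable Computable.id) hg)).congr fun n => ?_
  rw [id, hz n]

/-- it is enough to dominate the functions of the ground model -/
theorem idl_of_dom (V : Idl K)
    (H : ∀ (h : PM K) (M : ℕ → ℕ), ∃ (k : PM K) (C : (K → Cs) → Cs), V.W (h * k) C ∧
      ∀ x, ∃ g : ℕ → ℕ, CI {orc (C x)} g ∧ ∀ n, M n ≤ g n)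
    (h : PM K) {z : (K → Cs) → Cs} (hz : Continuous z) : ∃ k : PM K, V.W (h * k) (z ∘ ac k) := by
  obtain ⟨k, d, M, hd, hM⟩ := idl_lim V h hz
  obtain ⟨k', C, hC, hg⟩ := H (h * k) M
  refine ⟨k * k', ?_⟩
  rw [← mul_assoc]
  refine V.tr (V.join (V.res hd k') hC) (hz.comp (continuous_ac _)) fun x => ?_
  obtain ⟨g, hg1, hg2⟩ := hg x
  refine tr_of_lim (d := d (ac k' x)) (g := g) (tr_bjoin_left _ _) (ci_tr hg1 (tr_bjoin_right _ _)) fun n => ?_
  rw [hM _ n (g n) (hg2 n)]
  rfl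

end Pool.Agent.SX
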