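import Pool.Agent.Lib.SXI.IPs
import Pool.Agent.Lib.SX.Gsq

/-!
# ILs: supply of isomorphic families, for names of ideals
-/

set_option autoImplicit false

namespace Pool.Agent.SX

open Pool.Agent.Mart Cardinal

variable {K : Type}

/-- the type of a family: condition, the last part of the condition, value, modulus, positions -/
abbrev ITy : Type := (ℕ → SM) × (ℕ → SM) × {v : (ℕ → Cs) → Cs // Continuous v} × (ℕ → ℕ) × (ℕ → ℕ → ℕ)

/-- the condition -/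
def ITy.T (t : ITy) : ℕ → SM := t.1

/-- the last part of the condition -/
def ITy.Tk (t : ITy) : ℕ → SM := t.2.1

/-- the value -/
def ITy.v (t : ITy) : (ℕ → Cs) → Cs := t.2.2.1.1

/-- the modulus -/
def ITy.E (t : ITy) : ℕ → ℕ := t.2.2.2.1

/-- the positions -/
def ITy.pos (t : ITy) : ℕ → ℕ → ℕ := t.2.2.2.2

/-- the values at the points -/
def ITy.cl (g : (ℕ → Cs) → Cs) (t : ITy) (l : ℕ) (y : ℕ → Cs) : Cs :=
  g fun n => (t.Tk (t.pos l n)).f (y (t.pos l n))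

/-- `j` is a family of type `t` over the set `Z` -/
structure IObj (V : Idl K) (g : (ℕ → Cs) → Cs) (R0 : Set ℕ) (ρ0 : ℕ → K) (Z : Set K) (t : ITy) (j : ℕ → K) :
    Prop where
  inj : Function.Injective j
  val : V.W (tp j t.T) (fun x => t.v fun n => x (j n))
  app : ∀ y l m, t.E l ≤ m → t.v y (Nat.pair l m) = t.cl g l y m
  new : ∀ l n, n ∉ R0 → j (t.pos l n) ∉ Z
  root : ∀ l, ∀ n ∈ R0, j (t.pos l n) = ρ0 n
  dis : ∀ l l' n n', n ∉ R0 → l ≠ l' → t.pos l n ≠ t.pos l' n'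

theorem ilsA (hK : 𝔠 < #K) (V : Idl K) {T0 : ℕ → SM} {g : (ℕ → Cs) → Cs} {R0 : Set ℕ} {ρ0 : ℕ → K}
    (hs : ∀ Z0 : Set K, #Z0 ≤ 𝔠 → ∃ j, GoodI V T0 g R0 ρ0 j ∧ ∀ n, n ∉ R0 → j n ∉ Z0) {Z : Set K} (hZ : #Z ≤ 𝔠) :
    ∃ (t : ITy) (j : ℕ → K), IObj V g R0 ρ0 Z t j := by
  obtain ⟨J, hJ, A⟩ := gsq (G := GoodI V T0 g R0 ρ0) (fun j h => h.inj) (fun j h => h.root) hs hZ
  obtain ⟨h2, -, hm⟩ := un A T0 1 (fun l n _ => rfl)
  have h0 : ∀ l, V.W h2 (fun x => g fun n => x (J l n)) := by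
    intro l
    obtain ⟨m, e1, e2⟩ := hm l
    have h1 := V.res (hJ l).val m
    have h3 : (fun x : K → Cs => g fun n => x (J l n)) ∘ ac m = fun x => g fun n => x (J l n) := by
      funext x
      show g (fun n => (m.1 (J l n)).f (x (J l n))) = g fun n => x (J l n)
      congr 1
      funext n
      rw [e2 n]
      rfl
    rw [h3, ← e1] at h1
    exact h1
  obtain ⟨k, c, E, hc, hE⟩ := V.cl h0
  have hcc : Continuous c := V.cont hc
  obtain ⟨Iv, hIv, hdv⟩ := dep hcc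
  have hI : ((⋃ l, Set.range (J l)) ∪ {i | (h2 * k).1 i ≠ 1} ∪ Iv).Countable :=
    ((Set.countable_iUnion fun l => Set.countable_range (J l)).union (supp_countable _)).union hIv
  obtain ⟨j, hj, -, hjI⟩ := exists_enum hK hI (J 0 0)
  have hp : ∀ l n, ∃ m, j m = J l n := fun l n =>
    hjI _ (Or.inl (Or.inl (Set.mem_iUnion.2 ⟨l, n, rfl⟩)))
  choose pos hpos using hp
  obtain ⟨v', hv', hvv⟩ := read hcc hj (fun x y hxy => hdv x y fun i hi => by
    obtain ⟨n, rfl⟩ := hjI i (Or.inr hi)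
    exact hxy n)
  have htp : tp j (fun n => (h2 * k).1 (j n)) = h2 * k := by
    apply Subtype.ext
    funext i
    by_cases h : ∃ n, j n = i
    · obtain ⟨n, rfl⟩ := h
      exact tp_at hj _ n
    · have h1 : ∀ n, j n ≠ i := fun n hn => h ⟨n, hn⟩
      rw [tp_off _ h1]
      by_contra h2
      exact h (hjI i (Or.inl (Or.inr fun h3 => h2 h3.symm)))
  refine ⟨(fun n => (h2 * k).1 (j n), fun n => k.1 (j n), ⟨v', hv'⟩, E, pos), j, ⟨hj, ?_, ?_, ?_, ?_, ?_⟩⟩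
  · show V.W (tp j (fun n => (h2 * k).1 (j n))) (fun x => v' fun n => x (j n))
    rw [htp]
    have h4 : (fun x : K → Cs => v' fun n => x (j n)) = c := funext fun x => (hvv x).symm
    rw [h4]
    exact hc
  · intro y l m hm
    show v' y (Nat.pair l m) = (g fun n => (k.1 (j (pos l n))).f (y (pos l n))) m
    have hy : (fun n => Function.extend j y (fun _ _ => false) (j n)) = y :=
      funext fun n => hj.extend_apply y _ n
    have h1 := hE (Function.extend j y (fun _ _ => false)) l m hm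
    rw [hvv, hy] at h1
    rw [h1]
    congr 2
    funext n
    have h7 : y (pos l n) = Function.extend j y (fun _ _ => false) (J l n) := by
      rw [← hpos l n]
      exact (hj.extend_apply y _ _).symm
    rw [hpos l n, h7]
    rfl
  · intro l n hn
    show j (pos l n) ∉ Z
    rw [hpos l n]
    exact A.av l n hn
  · intro l n hn
    show j (pos l n) = ρ0 n
    rw [hpos l n]
    exact A.root l n hn
  · intro l l' n n' hn hl h
    have h' : pos l n = pos l' n' := h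
    apply A.dis l l' n n' hn hl
    rw [← hpos l n, ← hpos l' n', h']

/-- the supply of isomorphic families -/
theorem ilsB (hK : 𝔠 < #K) (V : Idl K) :
    ∃ (T : ℕ → SM) (hd : ℕ → ℕ) (cl : ℕ → (ℕ → Cs) → Cs) (θ : ℕ → SM) (v : (ℕ → Cs) → Cs) (E M : ℕ → ℕ)
      (R : Set ℕ) (ρ : ℕ → K) (blk : ℕ → Option ℕ), Continuous v ∧ (∀ l, Continuous (cl l)) ∧
      (∀ l y m, E l ≤ m → v y (Nat.pair l m) = cl l y m) ∧
      (∀ l y n s, M n ≤ s → cl l y (Nat.pair n s) = (θ l).f (y (hd l)) n) ∧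
      (∀ l y y', (∀ p, p ∈ R ∨ blk p = some l → y p = y' p) → cl l y = cl l y') ∧
      (∀ p ∈ R, blk p = none) ∧ (∀ l, blk (hd l) = some l) ∧
      ∀ Z0 : Set K, #Z0 ≤ 𝔠 → ∃ j, GoodI V T v R ρ j ∧ ∀ n, n ∉ R → j n ∉ Z0 := by
  classical
  obtain ⟨T0, g, M, R0, ρ0, hg, h0R0, hgM, hs⟩ := ips hK V
  have hempty : #(∅ : Set K) ≤ 𝔠 := by
    rw [Cardinal.mk_eq_zero]
    exact zero_le
  have hsing : ∀ z : K, #({z} : Set K) ≤ 𝔠 := by
    intro z
    rw [Cardinal.mk_singleton]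
    exact Cardinal.one_le_aleph0.trans Cardinal.aleph0_le_continuum
  have hone : ∀ Z : Set K, ∃ (t : ITy) (j : ℕ → K), #Z ≤ 𝔠 → IObj V g R0 ρ0 Z t j := by
    intro Z
    by_cases hZ : #Z ≤ 𝔠
    · obtain ⟨t, j, h⟩ := ilsA hK V hs hZ
      exact ⟨t, j, fun _ => h⟩
    · obtain ⟨t, j, -⟩ := ilsA hK V hs hempty
      exact ⟨t, j, fun h' => absurd h' hZ⟩
  choose t j htj using hone
  have hnat : #ℕ ≤ 𝔠 := by
    rw [Cardinal.mk_nat]
    exact Cardinal.aleph0_le_continuum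
  have hITy : #ITy ≤ 𝔠 :=
    card_prod (card_seq card_SM) (card_prod (card_seq card_SM) (card_prod (card_cont (ℕ → Cs))
      (card_prod (card_seq hnat) (card_seq (card_seq hnat)))))
  obtain ⟨t0, R, ρ, h⟩ : ∃ (t0 : ITy) (R : Set ℕ) (ρ : ℕ → K), ∀ Z0 : Set K, #Z0 ≤ 𝔠 →
      ∃ Z : Set K, #Z ≤ 𝔠 ∧ Z0 ⊆ Z ∧ t Z = t0 ∧ (∀ n ∈ R, j Z n = ρ n) ∧ ∀ n, n ∉ R → j Z n ∉ Z :=
    refl' hK hITy t j
  have hex : ∀ Z0 : Set K, #Z0 ≤ 𝔠 → ∃ (j' : ℕ → K) (Z : Set K), IObj V g R0 ρ0 Z t0 j' ∧ Z0 ⊆ Z ∧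
      (∀ n ∈ R, j' n = ρ n) ∧ ∀ n, n ∉ R → j' n ∉ Z := by
    intro Z0 hZ0
    obtain ⟨Z, hZ, hZZ, ht, hroot, hn⟩ := h Z0 hZ0
    refine ⟨j Z, Z, ?_, hZZ, hroot, hn⟩
    rw [← ht]
    exact htj Z hZ
  have hposR : ∀ l, ∀ n ∈ R0, t0.pos l n ∈ R := by
    intro l n hn
    by_contra hc
    obtain ⟨j', Z, ho, hZZ, hroot, hnew⟩ := hex {ρ0 n} (hsing _)
    apply hnew _ hc
    rw [ho.root l n hn]
    exact hZZ rfl
  have hposN : ∀ l n, n ∉ R0 → t0.pos l n ∉ R := by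
    intro l n hn hc
    obtain ⟨j', Z, ho, hZZ, hroot, hnew⟩ := hex {ρ (t0.pos l n)} (hsing _)
    apply ho.new l n hn
    rw [hroot _ hc]
    exact hZZ rfl
  obtain ⟨j1, Z1, ho1, -⟩ := hex ∅ hempty
  obtain ⟨blk, hblk1, hblk2⟩ : ∃ blk : ℕ → Option ℕ, (∀ l n, n ∉ R0 → blk (t0.pos l n) = some l) ∧
      ∀ p, (¬ ∃ l n, n ∉ R0 ∧ t0.pos l n = p) → blk p = none := by
    refine ⟨fun p => if h : ∃ l n, n ∉ R0 ∧ t0.pos l n = p then some h.choose else none, ?_, ?_⟩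
    · intro l n hn
      have h1 : ∃ l' n', n' ∉ R0 ∧ t0.pos l' n' = t0.pos l n := ⟨l, n, hn, rfl⟩
      have h2 : h1.choose = l := by
        obtain ⟨n', hn', hp⟩ := h1.choose_spec
        by_contra hne
        exact ho1.dis _ _ n' n hn' hne hp
      show (if h : ∃ l' n', n' ∉ R0 ∧ t0.pos l' n' = t0.pos l n then some h.choose else none) = some l
      rw [dif_pos h1, h2]
    · intro p hp
      exact dif_neg hp
  refine ⟨t0.T, fun l => t0.pos l 0, fun l => t0.cl g l, fun l => T0 0 * t0.Tk (t0.pos l 0), t0.v, t0.E, M, R, ρ,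
    blk, t0.2.2.1.2, ?_, fun l y m hm => ho1.app y l m hm, fun l y n s hns => hgM _ n s hns, ?_, ?_,
    fun l => hblk1 l 0 h0R0, ?_⟩
  · intro l
    exact hg.comp (continuous_pi fun n => (t0.Tk (t0.pos l n)).continuous.comp (continuous_apply _))
  · intro l y y' hyy
    show g _ = g _
    congr 1
    funext n
    by_cases hn : n ∈ R0
    · rw [hyy _ (Or.inl (hposR l n hn))]
    · rw [hyy _ (Or.inr (hblk1 l n hn))]
  · intro p hp
    apply hblk2
    rintro ⟨l, n, hn, rfl⟩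
    exact hposN l n hn hp
  · intro Z0 hZ0
    obtain ⟨j', Z, ho, hZZ, hroot, hnew⟩ := hex Z0 hZ0
    exact ⟨j', ⟨ho.inj, hroot, ho.val⟩, fun n hn hm => hnew n hn (hZZ hm)⟩

end Pool.Agent.SX
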