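import Pool.Agent.Lib.SXI.ILa
import Pool.Agent.Lib.SX.TpL
import Pool.Agent.Lib.SX.InjX
import Pool.Agent.Lib.SX.Fini
import Pool.Agent.Lib.SX.Card
import Pool.Agent.Lib.SX.Refl

/-!
# IPs: supply of isomorphic points, for names of ideals
-/

set_option autoImplicit false

namespace Pool.Agent.SX

open Cardinal

variable {K : Type}

/-- types of points: condition, value, modulus -/
abbrev PTy : Type := (ℕ → SM) × {g : (ℕ → Cs) → Cs // Continuous g} × (ℕ → ℕ)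

private theorem ips_one (hK : 𝔠 < #K) (V : Idl K) (Z : Set K) :
    ∃ (t : PTy) (j : ℕ → K), #Z ≤ 𝔠 → Function.Injective j ∧ j 0 ∉ Z ∧
        V.W (tp j t.1) (fun x => t.2.1.1 fun n => x (j n)) ∧
        ∀ y n s, t.2.2 n ≤ s → t.2.1.1 y (Nat.pair n s) = (t.1 0).f (y 0) n := by
  by_cases hZ : #Z ≤ 𝔠
  swap
  · have hne : Nonempty K := by
      rw [← Cardinal.mk_ne_zero_iff]
      intro h0
      rw [h0] at hK
      exact not_lt_zero hK
    exact ⟨(fun _ => 1, ⟨fun _ _ => false, continuous_const⟩, fun _ => 0), fun _ => hne.some,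
      fun h => absurd h hZ⟩
  obtain ⟨γ, hγ⟩ : ∃ γ, γ ∉ Z := by
    by_contra hcon
    push Not at hcon
    have h1 : Z = Set.univ := Set.eq_univ_of_forall hcon
    rw [h1, Cardinal.mk_univ] at hZ
    exact absurd hK (not_lt.2 hZ)
  obtain ⟨k, b, M, hV, hM⟩ := idl_lim V 1 (z := fun x => x γ) (continuous_apply γ)
  have hb : Continuous b := V.cont hV
  obtain ⟨I, hI, hdep⟩ := dep hb
  obtain ⟨j, hj, hj0, hjI⟩ := exists_enum hK (hI.union (supp_countable k)) γ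
  have htp : tp j (fun n => k.1 (j n)) = k := by
    apply Subtype.ext
    funext i
    by_cases h : ∃ n, j n = i
    · obtain ⟨n, rfl⟩ := h
      exact tp_at hj _ n
    · have h1 : ∀ n, j n ≠ i := fun n hn => h ⟨n, hn⟩
      rw [tp_off _ h1]
      by_contra h2
      exact h (hjI i (Or.inr fun h3 => h2 h3.symm))
  obtain ⟨g, hg, hbg⟩ := read hb hj (fun x y hxy => hdep x y fun i hi => by
    obtain ⟨n, rfl⟩ := hjI i (Or.inl hi)
    exact hxy n)
  refine ⟨(fun n => k.1 (j n), ⟨g, hg⟩, M), j, fun _ => ⟨hj, by rw [hj0]; exact hγ, ?_, ?_⟩⟩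
  · simp only
    rw [htp]
    rw [one_mul] at hV
    have h1 : (fun x : K → Cs => g fun n => x (j n)) = b := funext fun x => (hbg x).symm
    rw [h1]
    exact hV
  · intro y n s hs
    have hy : (fun n => Function.extend j y (fun _ _ => false) (j n)) = y :=
      funext fun n => hj.extend_apply y _ n
    have h1 := hM (Function.extend j y (fun _ _ => false)) n s hs
    rw [hbg, hy] at h1
    show g y (Nat.pair n s) = (k.1 (j 0)).f (y 0) n
    rw [h1]
    have h2 : Function.extend j y (fun _ _ => false) (j 0) = y 0 := hj.extend_apply y _ 0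
    rw [← h2, hj0]
    rfl

theorem ips (hK : 𝔠 < #K) (V : Idl K) :
    ∃ (T : ℕ → SM) (g : (ℕ → Cs) → Cs) (M : ℕ → ℕ) (R : Set ℕ) (ρ : ℕ → K), Continuous g ∧ 0 ∉ R ∧
      (∀ y n s, M n ≤ s → g y (Nat.pair n s) = (T 0).f (y 0) n) ∧
      ∀ Z0 : Set K, #Z0 ≤ 𝔠 → ∃ j, GoodI V T g R ρ j ∧ ∀ n, n ∉ R → j n ∉ Z0 := by
  choose t j htj using ips_one hK V
  have hnat : #ℕ ≤ 𝔠 := by
    rw [Cardinal.mk_nat]
    exact Cardinal.aleph0_le_continuum
  obtain ⟨t0, R, ρ, h⟩ := refl' hK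
    (card_prod (card_seq card_SM) (card_prod (card_cont (ℕ → Cs)) (card_seq hnat))) t j
  have hempty : #(∅ : Set K) ≤ 𝔠 := by
    rw [Cardinal.mk_eq_zero]
    exact zero_le
  refine ⟨t0.1, t0.2.1.1, t0.2.2, R, ρ, t0.2.1.2, ?_, ?_, ?_⟩
  · intro h0
    obtain ⟨Z, hZ, hZ0, -, hroot, -⟩ := h {ρ 0} (by
      rw [Cardinal.mk_singleton]
      exact Cardinal.one_le_aleph0.trans Cardinal.aleph0_le_continuum)
    have h1 := (htj Z hZ).2.1
    rw [hroot 0 h0] at h1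
    exact h1 (hZ0 rfl)
  · obtain ⟨Z, hZ, -, ht, -⟩ := h ∅ hempty
    obtain ⟨-, -, -, h4⟩ := htj Z hZ
    rw [ht] at h4
    exact h4
  · intro Z0 hZ0
    obtain ⟨Z, hZ, hZZ, ht, hroot, hn⟩ := h Z0 hZ0
    obtain ⟨h1, -, h3, -⟩ := htj Z hZ
    rw [ht] at h3
    exact ⟨j Z, ⟨h1, hroot, h3⟩, fun n hnR hmem => hn n hnR (hZZ hmem)⟩

end Pool.Agent.SX
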